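import Pool.Agent.Helper81.JT.PTJ
import Pool.Agent.Helper78.CG.Goals

/-!
# Project CG, packet CGP: the samples are computed in polynomial time
-/

set_option autoImplicit false

namespace Pool.Agent.Helper75.CG

open Pool.Agent.Helper78.JT Pool.Agent.Helper78.AO Pool.Agent.Helper78.DT Pool.Agent.Helper81.CC
  Pool.Agent.Helper16.DT Pool.Agent.Helper81.JT Pool.Agent.Helper78.CG

/-- The bits of the samples (compare `psdj`). -/
theorem pbit {α : Type} [ToData α] (c a β e : ℕ) {L n : α → ℕ} (hL : PolyTime L)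
    (hL2 : ∀ x, 2 ≤ L x) (hn : PolyTime n) (hLn : ∀ x, 2 ^ L x ≤ n x) :
    PolyTime fun w : (α × ℕ) × ℕ => bitj c a β e (L w.1.1) w.1.2 w.2 := by
  have hx : PolyTime fun z : α × ℕ => z.1 := PolyTime.fst PolyTime.id'
  have hLz : PolyTime fun z : α × ℕ => L z.1 := PolyTime.comp hL hx
  -- on triples
  have hzz : PolyTime fun w : (α × ℕ) × ℕ => w.1 := PolyTime.fst PolyTime.id'
  have hLw : PolyTime fun w : (α × ℕ) × ℕ => L w.1.1 :=
    PolyTime.comp (g := fun z : α × ℕ => L z.1) hLz hzz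
  have hnz : PolyTime fun z : α × ℕ => n z.1 := PolyTime.comp hn hx
  have hnw : PolyTime fun w : (α × ℕ) × ℕ => n w.1.1 :=
    PolyTime.comp (g := fun z : α × ℕ => n z.1) hnz hzz
  have hvw : PolyTime fun w : (α × ℕ) × ℕ => w.2 := PolyTime.snd PolyTime.id'
  have hiw : PolyTime fun w : (α × ℕ) × ℕ => w.1.2 :=
    PolyTime.comp (g := fun z : α × ℕ => z.2) (PolyTime.snd PolyTime.id') hzz
  -- on quadruples
  have hww : PolyTime fun y : ((α × ℕ) × ℕ) × ℕ => y.1 := PolyTime.fst PolyTime.id'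
  have hLy : PolyTime fun y : ((α × ℕ) × ℕ) × ℕ => L y.1.1.1 :=
    PolyTime.comp (g := fun w : (α × ℕ) × ℕ => L w.1.1) hLw hww
  have hny : PolyTime fun y : ((α × ℕ) × ℕ) × ℕ => n y.1.1.1 :=
    PolyTime.comp (g := fun w : (α × ℕ) × ℕ => n w.1.1) hnw hww
  have hiy : PolyTime fun y : ((α × ℕ) × ℕ) × ℕ => y.1.1.2 :=
    PolyTime.comp (g := fun w : (α × ℕ) × ℕ => w.1.2) hiw hww
  have hjy : PolyTime fun y : ((α × ℕ) × ℕ) × ℕ => y.2 := PolyTime.snd PolyTime.id'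
  have hAw : PolyTime fun y : ((α × ℕ) × ℕ) × ℕ => dg (Pj c (L y.1.1.1)) y.1.1.2 y.2 :=
    (Pool.Agent.Helper87.DT.ptn _).2 _ _ _ (pPj c hLy) hiy hjy
  have hdivw : PolyTime fun w : (α × ℕ) × ℕ => w.1.2 / Pj c (L w.1.1) ^ (tj a e (L w.1.1) + 2) :=
    pdivpow Pool.Agent.Helper3.DT.ptl cpwS hiw (pPj c hLw)
      (PolyTime.add (ptj' a e hLw) (PolyTime.const 2)) fun w => Pj_pos c (hL2 _)
  have hdivy : PolyTime fun y : ((α × ℕ) × ℕ) × ℕ =>
      y.1.1.2 / Pj c (L y.1.1.1) ^ (tj a e (L y.1.1.1) + 2) :=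
    pdivpow Pool.Agent.Helper3.DT.ptl cpwS hiy (pPj c hLy)
      (PolyTime.add (ptj' a e hLy) (PolyTime.const 2)) fun y => Pj_pos c (hL2 _)
  have hdivy2 : PolyTime fun y : ((α × ℕ) × ℕ) × ℕ =>
      y.1.1.2 / Pj c (L y.1.1.1) ^ (tj a e (L y.1.1.1) + 2) /
        Zl (Rj a e (L y.1.1.1)) (dj a e (L y.1.1.1)) (e + 1) :=
    pZl a e hLy (fun y => hL2 _) hny (fun y => hLn _) hdivy (e + 1) le_rfl
  -- the partition
  have hpt : PolyTime fun w : (α × ℕ) × ℕ => pt (Pj c (L w.1.1)) (Kj c a β e (L w.1.1))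
      (tj a e (L w.1.1)) (L w.1.1) (dg (Pj c (L w.1.1)) w.1.2) w.2 :=
    ppt Pool.Agent.Helper87.DT.ptn (pPj c hLw) (pKj c a β e hLw) (ptj' a e hLw) hLw hvw hAw
      fun w => Pj_pos c (hL2 _)
  -- the code of the part
  have hs2 : PolyTime fun y : ((α × ℕ) × ℕ) × ℕ => dg (qj c (L y.1.1.1) * Pj c (L y.1.1.1))
      (y.1.1.2 / Pj c (L y.1.1.1) ^ (tj a e (L y.1.1.1) + 2) /
        Zl (Rj a e (L y.1.1.1)) (dj a e (L y.1.1.1)) (e + 1)) y.2 :=
    (Pool.Agent.Helper87.DT.ptn _).2 _ _ _ (PolyTime.mul (pqj c hLy) (pPj c hLy)) hdivy2 hjy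
  have hs1 : PolyTime fun w : (α × ℕ) × ℕ => dg (qj c (L w.1.1) * Pj c (L w.1.1))
      (w.1.2 / Pj c (L w.1.1) ^ (tj a e (L w.1.1) + 2) /
        Zl (Rj a e (L w.1.1)) (dj a e (L w.1.1)) (e + 1))
      (pt (Pj c (L w.1.1)) (Kj c a β e (L w.1.1)) (tj a e (L w.1.1)) (L w.1.1)
        (dg (Pj c (L w.1.1)) w.1.2) w.2) :=
    PolyTime.comp (g := fun y : ((α × ℕ) × ℕ) × ℕ => dg (qj c (L y.1.1.1) * Pj c (L y.1.1.1))
        (y.1.1.2 / Pj c (L y.1.1.1) ^ (tj a e (L y.1.1.1) + 2) /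
          Zl (Rj a e (L y.1.1.1)) (dj a e (L y.1.1.1)) (e + 1)) y.2)
      (f := fun w : (α × ℕ) × ℕ => (w, pt (Pj c (L w.1.1)) (Kj c a β e (L w.1.1))
        (tj a e (L w.1.1)) (L w.1.1) (dg (Pj c (L w.1.1)) w.1.2) w.2)) hs2
      (PolyTime.pair PolyTime.id' hpt)
  unfold bitj cnj
  refine psb (pPj c hLw) (pDj a e hLw fun w => hL2 _) ?_ ?_ fun w => Pj_pos c (hL2 _)
  · exact pch a e hLw (fun w => hL2 _) hnw (fun w => hLn _) hdivw (PolyTime.div hs1 (pPj c hLw))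
      (e + 1) le_rfl
  · exact phs Pool.Agent.Helper87.DT.ptn (pPj c hLw) hLw (PolyTime.mod hs1 (pPj c hLw)) hvw
      fun w => Pj_pos c (hL2 _)

/-- packet CGP -/
theorem cgp : CgpStmt := by
  intro c a β e C
  have hs : PolyTime fun N : ℕ => N := PolyTime.id'
  have hL : PolyTime fun N : ℕ => lg N := (Pool.Agent.Helper3.DT.ptl ℕ _ _ _ hs hs hs).1
  have hL2 : ∀ N : ℕ, 2 ≤ lg N := fun N => lg_two _
  have hn : PolyTime fun N : ℕ => 4 * N + 4 :=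
    PolyTime.add (PolyTime.mul (PolyTime.const 4) hs) (PolyTime.const 4)
  have hLn : ∀ N : ℕ, 2 ^ lg N ≤ 4 * N + 4 := fun N => two_pow_lg _
  have hcap : PolyTime fun N : ℕ => (4 * N + 4) ^ C := PolyTime.pow hn C
  have hzn : PolyTime fun N : ℕ => znj c a β e C N := by
    unfold znj Zcj
    refine PolyTime.mul (PolyTime.mul ?_ ?_) ?_
    · exact (Pool.Agent.Helper3.DT.ptl ℕ _ _ _ hcap
        (PolyTime.add (ptj' a e hL) (PolyTime.const 2)) (pPj c hL)).2.2.2.1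
    · exact pZlc a e hL hL2 hn hLn hcap (e + 1) le_rfl
    · exact (Pool.Agent.Helper3.DT.ptl ℕ _ _ _ hcap (pKj c a β e hL)
        (PolyTime.mul (pqj c hL) (pPj c hL))).2.2.2.1
  have hbit := pbit c a β e hL hL2 hn hLn
  unfold gen
  refine PolyTime.list_map (f := fun N i => (List.range N).map (bitj c a β e (lg N) i))
    (PolyTime.range hzn) ?_
  exact PolyTime.list_map (f := fun (z : ℕ × ℕ) v => bitj c a β e (lg z.1) z.2 v)
    (PolyTime.range (PolyTime.fst PolyTime.id')) hbit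

end Pool.Agent.Helper75.CG
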